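import Pool.Agent.Lib.Pad47bbL.Siegel
import Pool.Agent.Lib.Pad47bbB.Poly
import Pool.Agent.Lib.Pad47bbD.Effective
import Pool.Agent.Lib.Pad47bbX.Basic

/-!
If a group has a rational polyhedral fundamental domain, the intersections of the cone with
`cone Y + span J` are rational polyhedral, for every finite set `J` of lattice points permuted by the
group.
-/

open Set Topology

namespace Pool.Agent.Lib.Pad47bbL

open Pool.Agent.Lib.Pad47bb Pool.Agent.Lib.Pad47bbQ Pool.Agent.Lib.Pad47bbM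
  Pool.Agent.Lib.Pad47bbB

variable {V : Type*} [NormedAddCommGroup V] [NormedSpace ℝ V] [FiniteDimensional ℝ V]
  {L : Submodule ℤ V} [DiscreteTopology L] [IsZLattice ℝ L]

/-- The group fixes `J` pointwise and the translates of `cone s` cover the interior of `N`. -/
theorem isRatPoly_inf_of_cover {N : PointedCone ℝ V} {Γ : Subgroup (V ≃ₗ[ℝ] V)}
    (S : Setting L N Γ) (J : Finset V) (hJL : ∀ p ∈ J, p ∈ L)
    (hJ : ∀ g ∈ Γ, ∀ p ∈ J, g p = p) (s : Finset V) (hsL : (s : Set V) ⊆ L)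
    (hsN : (s : Set V) ⊆ N)
    (hcov : ∀ x ∈ interior (N : Set V), ∃ g ∈ Γ, ∃ y ∈ PointedCone.hull ℝ (s : Set V), g y = x)
    (Y : Finset V) (hY : ∀ y ∈ Y, y ∈ L ∧ y ∈ N) : IsRatPoly L (N ⊓ sumCone Y J) := by
  classical
  obtain ⟨f, hf⟩ := exists_pos N S.salient
  obtain ⟨e, he⟩ := S.interior_nonempty
  obtain ⟨v, hv, hev⟩ := exists_hull_interior (L := L) he
  have hW : ∀ g ∈ Γ, ∀ w ∈ Submodule.span ℝ (J : Set V), g w = w := by
    intro g hg w hw
    induction hw using Submodule.span_induction with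
    | mem x hx => exact hJ g hg x hx
    | zero => exact map_zero g
    | add x y _ _ hx hy => rw [map_add, hx, hy]
    | smul c x _ hx => rw [map_smul, hx]
  have hfin := siegelW S (Submodule.span ℝ (J : Set V)) hW s hsL hsN (Y ∪ v)
    (by rw [Finset.coe_union]; exact union_subset (fun p hp => (hY p hp).1) fun p hp => (hv p hp).1)
    (by rw [Finset.coe_union]
        exact union_subset (fun p hp => (hY p hp).2) fun p hp => interior_subset (hv p hp).2)
  set Φ := hfin.toFinset with hΦ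
  have hΦΓ : ∀ g ∈ Φ, g ∈ Γ := fun g hg => (hfin.mem_toFinset.1 hg).1
  have hcl : IsClosed (⋃ g ∈ (Φ : Set (V ≃ₗ[ℝ] V)),
      (g : V → V) '' (PointedCone.hull ℝ (s : Set V) : Set V)) :=
    Φ.finite_toSet.isClosed_biUnion fun g _ =>
      g.toContinuousLinearEquiv.toHomeomorph.isClosedMap _ (isClosed_hull f hf s hsN)
  have hmem : ∀ z ∈ N ⊓ sumCone Y J, ∃ g ∈ Φ,
      ∃ y ∈ PointedCone.hull ℝ (s : Set V), g y = z := by
    rintro z ⟨hzN, hzY⟩
    obtain ⟨y₀, hy₀, hzy₀⟩ := mem_sumCone.1 hzY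
    have hz : z ∈ ⋃ g ∈ (Φ : Set (V ≃ₗ[ℝ] V)),
        (g : V → V) '' (PointedCone.hull ℝ (s : Set V) : Set V) := by
      rw [← hcl.closure_eq, mem_closure_iff_frequently]
      refine (tendsto_add_smul z e).frequently (p := fun y => y ∈ ⋃ g ∈ (Φ : Set (V ≃ₗ[ℝ] V)),
        (g : V → V) '' (PointedCone.hull ℝ (s : Set V) : Set V)) (Filter.Frequently.of_forall ?_)
      intro n
      have hint : z + (1 / ((n : ℝ) + 1)) • e ∈ interior (N : Set V) := by
        rw [add_comm]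
        exact interior_add_mem (interior_smul_mem he (by positivity)) hzN
      obtain ⟨g, hg, y, hy, hgy⟩ := hcov _ hint
      refine mem_biUnion (x := g) (Finset.mem_coe.2 (hfin.mem_toFinset.2 ⟨hg, _, hint,
        ⟨y, hy, ?_⟩, y₀ + (1 / ((n : ℝ) + 1)) • e, ?_, ?_⟩)) ⟨y, hy, hgy⟩
      · rw [hgy, sub_self]
        exact Submodule.zero_mem _
      · refine Submodule.add_mem _ (hull_mono_finset Finset.subset_union_left hy₀) ?_
        exact PointedCone.smul_mem _ (by positivity) (hull_mono_finset Finset.subset_union_right hev)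
      · have h1 : z + (1 / ((n : ℝ) + 1)) • e - (y₀ + (1 / ((n : ℝ) + 1)) • e) = z - y₀ := by abel
        rw [h1]
        exact hzy₀
    simp only [mem_iUnion] at hz
    obtain ⟨g, hg, y, hy, hyz⟩ := hz
    exact ⟨g, Finset.mem_coe.1 hg, y, hy, hyz⟩
  have heq : N ⊓ sumCone Y J =
      ⨆ g ∈ Φ, (imageCone g (PointedCone.hull ℝ (s : Set V)) ⊓ sumCone Y J) := by
    apply le_antisymm
    · intro z hz
      obtain ⟨g, hg, y, hy, hyz⟩ := hmem z hz
      exact (le_iSup₂ (f := fun g (_ : g ∈ Φ) => imageCone g (PointedCone.hull ℝ (s : Set V)) ⊓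
        sumCone Y J) g hg) ⟨⟨y, hy, hyz⟩, hz.2⟩
    · refine iSup₂_le fun g hg => inf_le_inf_right _ (imageCone_le fun x hx => ?_)
      exact S.map_cone g (hΦΓ g hg) x (Submodule.span_le.2 hsN hx)
  rw [heq]
  exact IsRatPoly.biSup Φ _ fun g hg => Pool.Agent.Lib.Pad47bbD.isRatPoly_inf
    (IsRatPoly.image ⟨s, hsL, rfl⟩ g (S.map_lattice g (hΦΓ g hg)))
    (isRatPoly_sumCone L Y J (fun y hy => (hY y hy).1) hJL)

/-- If a group `Γ` with a rational polyhedral fundamental domain on `M`, `int N ⊆ M ⊆ N`, permutes a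
finite set `J` of lattice points, then `N ∩ (cone Y + span J)` is rational polyhedral for every
finite set `Y` of lattice points of `N`. -/
theorem isRatPoly_inf_of_hasRPFD {N M : PointedCone ℝ V} {Γ : Subgroup (V ≃ₗ[ℝ] V)}
    (S : Setting L N Γ) (hM1 : interior (N : Set V) ⊆ M)
    (hM2 : M ≤ N) (J : Finset V) (hJL : ∀ p ∈ J, p ∈ L) (hJ : ∀ g ∈ Γ, ∀ p ∈ J, g p ∈ J)
    (h : HasRPFD L Γ M) (Y : Finset V) (hY : ∀ y ∈ Y, y ∈ L ∧ y ∈ N) :
    IsRatPoly L (N ⊓ sumCone Y J) := by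
  classical
  obtain ⟨P, hP, hcov, -⟩ := h
  have hPM : P ≤ M := IsRatPoly.le_of_cover hcov
  -- `M` is preserved
  have hmapM : ∀ g ∈ Γ, ∀ x ∈ M, g x ∈ M := by
    intro g hg x hx
    have hx' : x ∈ (M : Set V) := hx
    rw [hcov] at hx'
    simp only [mem_iUnion] at hx'
    obtain ⟨k, hk, y, hy, hyx⟩ := hx'
    show g x ∈ (M : Set V)
    rw [hcov]
    refine mem_biUnion (x := g * k) (mul_mem hg hk) ⟨y, hy, ?_⟩
    rw [← hyx]
    rfl
  have hSM : Setting L M Γ :=
    { salient := fun x hx hx' => S.salient x (closure_mono hM2 hx) (closure_mono hM2 hx')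
      interior_nonempty := by
        obtain ⟨e, he⟩ := S.interior_nonempty
        exact ⟨e, interior_maximal hM1 isOpen_interior he⟩
      map_lattice := S.map_lattice
      map_cone := hmapM }
  obtain ⟨Q, ⟨s, hsL, rfl⟩, hQ⟩ := exists_cover_of_finiteIndex
    (Pool.Agent.Lib.Pad47bbX.fixer_le Γ J) hSM hP hcov
    (Pool.Agent.Lib.Pad47bbX.fixer_finiteIndex hJ)
  have hQM : PointedCone.hull ℝ (s : Set V) ≤ M := IsRatPoly.le_of_cover hQ
  refine isRatPoly_inf_of_cover (S.mono (Pool.Agent.Lib.Pad47bbX.fixer_le Γ J)) J hJL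
    (fun g hg => hg.2) s hsL (fun x hx => hM2 (hQM (Submodule.subset_span hx))) ?_ Y hY
  intro x hx
  have hx' : x ∈ (M : Set V) := hM1 hx
  rw [hQ] at hx'
  simp only [mem_iUnion] at hx'
  obtain ⟨g, hg, y, hy, hyx⟩ := hx'
  exact ⟨g, hg, y, hy, hyx⟩

end Pool.Agent.Lib.Pad47bbL
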