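import Pool.Agent.Lib.Pad47bbM.Siegel

/-!
The Siegel property modulo a subspace `W` which is fixed pointwise.
-/

open Set Topology

namespace Pool.Agent.Lib.Pad47bbL

open Pool.Agent.Lib.Pad47bb Pool.Agent.Lib.Pad47bbQ Pool.Agent.Lib.Pad47bbM

variable {V : Type*} [NormedAddCommGroup V] [NormedSpace ℝ V] [FiniteDimensional ℝ V]
  {L : Submodule ℤ V} [DiscreteTopology L] [IsZLattice ℝ L]

omit [FiniteDimensional ℝ V] in
/-- Vectors fixed by the group do not matter for minimality. -/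
theorem isMinimal_add_fixed {Γ : Subgroup (V ≃ₗ[ℝ] V)} {f : V →L[ℝ] ℝ} {x w : V}
    (hw : ∀ g ∈ Γ, g w = w) : IsMinimal Γ f (x + w) ↔ IsMinimal Γ f x := by
  constructor
  · intro h g hg
    have h1 := h g hg
    rw [map_add, map_add, map_add, hw g hg] at h1
    linarith
  · intro h g hg
    rw [map_add, map_add, map_add, hw g hg]
    linarith [h g hg]

omit [FiniteDimensional ℝ V] [DiscreteTopology L] [IsZLattice ℝ L] in
theorem sum_add_interior {K : PointedCone ℝ V} {F : Finset V} {c : V → ℝ} {w : V}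
    (hF : (F : Set V) ⊆ K) (hc : ∀ a ∈ F, 0 < c a)
    (h : ∑ a ∈ F, c a • a + w ∈ interior (K : Set V)) :
    ∃ r : ℝ, 0 < r ∧ ∑ a ∈ F, a + r • w ∈ interior (K : Set V) := by
  set C : ℝ := 1 + ∑ a ∈ F, c a with hC
  have hC0 : 0 < C := by
    have : 0 ≤ ∑ a ∈ F, c a := Finset.sum_nonneg fun a ha => (hc a ha).le
    linarith
  have hcC : ∀ a ∈ F, c a ≤ C := fun a ha => by
    have := Finset.single_le_sum (f := c) (fun b hb => (hc b hb).le) ha
    linarith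
  refine ⟨C⁻¹, inv_pos.2 hC0, ?_⟩
  have h1 : ∑ a ∈ F, (C - c a) • a ∈ K := by
    refine K.sum_mem fun a ha => ?_
    exact PointedCone.smul_mem K (sub_nonneg.2 (hcC a ha)) (hF ha)
  have h2 := interior_add_mem h h1
  have h3 : ∑ a ∈ F, c a • a + w + ∑ a ∈ F, (C - c a) • a = C • (∑ a ∈ F, a + C⁻¹ • w) := by
    rw [smul_add, smul_smul, mul_inv_cancel₀ hC0.ne', one_smul, Finset.smul_sum]
    have h4 : ∑ a ∈ F, C • a = ∑ a ∈ F, c a • a + ∑ a ∈ F, (C - c a) • a := by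
      rw [← Finset.sum_add_distrib]
      refine Finset.sum_congr rfl fun a _ => ?_
      rw [← add_smul]
      congr 1
      ring
    rw [h4]
    abel
  rw [h3] at h2
  have h5 := interior_smul_mem h2 (inv_pos.2 hC0)
  rwa [smul_smul, inv_mul_cancel₀ hC0.ne', one_smul] at h5

/-- Only finitely many elements of `Γ` move a point `z` of `cone s` with `(z + W) ∩ int N ≠ ∅` to a
minimal point. -/
theorem finite_minimizersW {N : PointedCone ℝ V} {Γ : Subgroup (V ≃ₗ[ℝ] V)} (S : Setting L N Γ)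
    (W : Submodule ℝ V) (hW : ∀ g ∈ Γ, ∀ w ∈ W, g w = w)
    (s : Finset V) (hsL : (s : Set V) ⊆ L) (hsN : (s : Set V) ⊆ N) (f : V →L[ℝ] ℝ)
    (hf : ∀ x ∈ closure (N : Set V), x ≠ 0 → 0 < f x) :
    {γ : V ≃ₗ[ℝ] V | γ ∈ Γ ∧ ∃ z ∈ PointedCone.hull ℝ (s : Set V), ∃ w ∈ W,
      z + w ∈ interior (N : Set V) ∧ IsMinimal Γ f (γ z)}.Finite := by
  classical
  obtain ⟨Φ, hΦΓ, hΦne, hΦ⟩ := dicksonR (L := L) N s (Γ : Set (V ≃ₗ[ℝ] V)) ⟨1, one_mem Γ⟩ f hf (by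
    intro g hg a ha
    exact ⟨S.map_lattice g hg a (hsL ha), S.map_cone g hg a (hsN ha)⟩)
  let T : Set (Finset V) := {F | F ∈ s.powerset ∧
    ∃ w ∈ W, ∑ a ∈ F, a + w ∈ interior (N : Set V)}
  have hT : T.Finite := (s.powerset.finite_toSet).subset fun F hF => hF.1
  have hTw : ∀ F ∈ T, ∃ w ∈ W, ∑ a ∈ F, a + w ∈ interior (N : Set V) := fun F hF => hF.2
  choose! ω hωW hωint using hTw
  have hfin : (⋃ φ ∈ (Φ : Set (V ≃ₗ[ℝ] V)), ⋃ F ∈ T, {γ : V ≃ₗ[ℝ] V | γ ∈ (Γ : Set (V ≃ₗ[ℝ] V)) ∧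
        f (γ (∑ a ∈ F, a + ω F)) ≤ f (φ (∑ a ∈ F, a + ω F))}).Finite := by
    refine (Φ.finite_toSet).biUnion fun φ _ => ?_
    refine hT.biUnion fun F hF => ?_
    exact finite_le L N (Γ : Set (V ≃ₗ[ℝ] V)) S.map_lattice S.map_cone f hf _ (hωint F hF) _
  refine hfin.subset ?_
  rintro γ ⟨hγ, z, hz, w, hw, hzint, hmin⟩
  obtain ⟨φ, hφ, hle⟩ := hΦ γ hγ
  obtain ⟨c, hc, hzc⟩ := mem_hull_finset.1 hz
  have hmin' : f (γ z) ≤ f (φ z) := by
    have h1 := hmin (φ * γ⁻¹) (mul_mem (hΦΓ hφ) (inv_mem hγ))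
    have h2 : (φ * γ⁻¹) (γ z) = φ z := by
      show φ (γ⁻¹ (γ z)) = φ z
      congr 1
      exact γ.symm_apply_apply z
    rwa [h2] at h1
  have heq : f (γ z) = f (φ z) := le_antisymm hmin' (hle z hz)
  set F := s.filter fun a => 0 < c a with hF
  have hFs : F ⊆ s := Finset.filter_subset _ _
  have hzF : z = ∑ a ∈ F, c a • a := by
    rw [hzc, hF, Finset.sum_filter]
    refine Finset.sum_congr rfl fun a ha => ?_
    by_cases h : 0 < c a
    · rw [if_pos h]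
    · rw [if_neg h, le_antisymm (not_lt.1 h) (hc a ha), zero_smul]
  have hcpos : ∀ a ∈ F, 0 < c a := fun a ha => (Finset.mem_filter.1 ha).2
  have hFT : F ∈ T := by
    obtain ⟨r, hr, hrw⟩ := sum_add_interior (K := N) (w := w) (fun a ha => hsN (hFs ha)) hcpos
      (by rw [← hzF]; exact hzint)
    exact ⟨Finset.mem_powerset.2 hFs, r • w, W.smul_mem r hw, hrw⟩
  have hterm : ∀ a ∈ F, 0 ≤ c a * (f (γ a) - f (φ a)) := fun a ha =>
    mul_nonneg (hcpos a ha).le (sub_nonneg.2 (hle a (Submodule.subset_span (hFs ha))))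
  have hsum0 : ∑ a ∈ F, c a * (f (γ a) - f (φ a)) = 0 := by
    have e1 : f (γ z) = ∑ a ∈ F, c a * f (γ a) := by rw [hzF]; simp [map_sum]
    have e2 : f (φ z) = ∑ a ∈ F, c a * f (φ a) := by rw [hzF]; simp [map_sum]
    have e3 : ∑ a ∈ F, c a * (f (γ a) - f (φ a))
        = ∑ a ∈ F, c a * f (γ a) - ∑ a ∈ F, c a * f (φ a) := by
      rw [← Finset.sum_sub_distrib]
      exact Finset.sum_congr rfl fun a _ => by ring
    rw [e3, ← e1, ← e2, heq, sub_self]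
  have heach := (Finset.sum_eq_zero_iff_of_nonneg hterm).1 hsum0
  have hea : ∀ a ∈ F, f (γ a) = f (φ a) := by
    intro a ha
    rcases mul_eq_zero.1 (heach a ha) with h | h
    · exact absurd h (hcpos a ha).ne'
    · linarith
  refine mem_biUnion (x := φ) hφ (mem_biUnion (x := F) hFT ⟨hγ, ?_⟩)
  have e4 : f (γ (∑ a ∈ F, a)) = f (φ (∑ a ∈ F, a)) := by
    rw [map_sum, map_sum, map_sum, map_sum]
    exact Finset.sum_congr rfl hea
  rw [map_add, map_add, map_add, map_add, hW γ hγ _ (hωW F hFT), hW φ (hΦΓ hφ) _ (hωW F hFT), e4]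

/-- **The Siegel property modulo `W`.** Only finitely many translates of `cone s + W` meet
`cone u + W` in an interior point of `N`. -/
theorem siegelW {N : PointedCone ℝ V} {Γ : Subgroup (V ≃ₗ[ℝ] V)} (S : Setting L N Γ)
    (W : Submodule ℝ V) (hW : ∀ g ∈ Γ, ∀ w ∈ W, g w = w)
    (s : Finset V) (hsL : (s : Set V) ⊆ L) (hsN : (s : Set V) ⊆ N)
    (u : Finset V) (huL : (u : Set V) ⊆ L) (huN : (u : Set V) ⊆ N) :
    {g : V ≃ₗ[ℝ] V | g ∈ Γ ∧ ∃ x ∈ interior (N : Set V),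
      (∃ z ∈ PointedCone.hull ℝ (s : Set V), x - g z ∈ W) ∧
      ∃ y ∈ PointedCone.hull ℝ (u : Set V), x - y ∈ W}.Finite := by
  classical
  obtain ⟨f, hf⟩ := exists_pos N S.salient
  obtain ⟨Φ, hΦΓ, hΦne, hΦ⟩ := dicksonR (L := L) N u (Γ : Set (V ≃ₗ[ℝ] V)) ⟨1, one_mem Γ⟩ f hf (by
    intro g hg a ha
    exact ⟨S.map_lattice g hg a (huL ha), S.map_cone g hg a (huN ha)⟩)
  have hfin := finite_minimizersW S W hW s hsL hsN f hf
  refine ((Φ.finite_toSet).biUnion (t := fun φ => (fun γ : V ≃ₗ[ℝ] V => φ⁻¹ * γ) ''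
    {γ : V ≃ₗ[ℝ] V | γ ∈ Γ ∧ ∃ z ∈ PointedCone.hull ℝ (s : Set V), ∃ w ∈ W,
      z + w ∈ interior (N : Set V) ∧ IsMinimal Γ f (γ z)}) fun φ _ => hfin.image _).subset ?_
  rintro g ⟨hg, x, hx, ⟨z, hz, hzW⟩, y, hy, hyW⟩
  obtain ⟨φ, hφ, hφmin⟩ := Φ.exists_min_image (fun ψ => f (ψ y)) hΦne
  have hminy : IsMinimal Γ f (φ y) := by
    intro h hh
    obtain ⟨ψ, hψ, hψx⟩ := hΦ (h * φ) (mul_mem hh (hΦΓ hφ))
    exact (hφmin ψ hψ).trans (hψx _ hy)
  have hminz : IsMinimal Γ f (φ (g z)) := by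
    have hd : g z - y ∈ W := by
      have := W.sub_mem hyW hzW
      rwa [sub_sub_sub_cancel_left] at this
    have h1 : φ (g z) = φ y + (g z - y) := by
      have h2 : φ (g z - y) = g z - y := hW φ (hΦΓ hφ) _ hd
      rw [map_sub] at h2
      rw [← h2]
      abel
    rw [h1]
    exact (isMinimal_add_fixed fun k hk => hW k hk _ hd).2 hminy
  refine mem_biUnion (x := φ) hφ ⟨φ * g, ⟨mul_mem (hΦΓ hφ) hg, z, hz, x - g z, hzW, ?_, hminz⟩, ?_⟩
  · have h1 := interior_map_mem (S.map_cone _ (inv_mem hg)) hx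
    have h2 : g⁻¹ x = z + (x - g z) := by
      have h3 : g⁻¹ (x - g z) = x - g z := hW _ (inv_mem hg) _ hzW
      have h4 : g⁻¹ (g z) = z := g.symm_apply_apply z
      rw [map_sub, h4] at h3
      rw [← h3]
      abel
    rwa [h2] at h1
  · show φ⁻¹ * (φ * g) = g
    group

end Pool.Agent.Lib.Pad47bbL
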